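import Pool.Agent.V11181.PVC.Data
set_option autoImplicit false

/-! Checker for the certificate, and its soundness. -/

namespace Pool.Agent.V11181.PVC
open Finset

/-- adjacency test -/
def bit (a b : ℕ) : Bool := Nat.testBit adjM (24 * a + b)

/-- `i`-th vertex of the coded path -/
def vx (c i : ℕ) : ℕ := c / 24 ^ i % 24

/-- the code is a path on six vertices -/
def isPath (c : ℕ) : Bool :=
  bit (vx c 0) (vx c 1) && (bit (vx c 1) (vx c 2) && (bit (vx c 2) (vx c 3) &&
  (bit (vx c 3) (vx c 4) && (bit (vx c 4) (vx c 5) &&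
  (!(vx c 0 == vx c 1) && (!(vx c 0 == vx c 2) && (!(vx c 0 == vx c 3) && (!(vx c 0 == vx c 4) &&
  (!(vx c 0 == vx c 5) && (!(vx c 1 == vx c 2) && (!(vx c 1 == vx c 3) && (!(vx c 1 == vx c 4) &&
  (!(vx c 1 == vx c 5) && (!(vx c 2 == vx c 3) && (!(vx c 2 == vx c 4) && (!(vx c 2 == vx c 5) &&
  (!(vx c 3 == vx c 4) && (!(vx c 3 == vx c 5) && !(vx c 4 == vx c 5)))))))))))))))))))

/-- no vertex of the path is in the mask -/
def disj (c S : ℕ) : Bool :=
  !(S.testBit (vx c 0)) && (!(S.testBit (vx c 1)) && (!(S.testBit (vx c 2)) &&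
  (!(S.testBit (vx c 3)) && (!(S.testBit (vx c 4)) && !(S.testBit (vx c 5))))))

/-- all vertices of the path are in the mask -/
def inside (c F : ℕ) : Bool :=
  F.testBit (vx c 0) && (F.testBit (vx c 1) && (F.testBit (vx c 2) &&
  (F.testBit (vx c 3) && (F.testBit (vx c 4) && F.testBit (vx c 5)))))

/-- add a vertex to a mask -/
def add (S v : ℕ) : ℕ := S ||| (1 <<< v)

/-- the checker -/
def chk : Tr → ℕ → ℕ → ℕ → Bool
  | .leaf c, S, F, n => isPath c && (disj c S && (n == 6 || inside c F))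
  | .node c t0 t1 t2 t3 t4 t5, S, F, n => isPath c && (disj c S &&
      ((F.testBit (vx c 0) || chk t0 (add S (vx c 0)) F (n + 1)) &&
      ((F.testBit (vx c 1) || chk t1 (add S (vx c 1)) (add F (vx c 0)) (n + 1)) &&
      ((F.testBit (vx c 2) || chk t2 (add S (vx c 2)) (add (add F (vx c 0)) (vx c 1)) (n + 1)) &&
      ((F.testBit (vx c 3) ||
        chk t3 (add S (vx c 3)) (add (add (add F (vx c 0)) (vx c 1)) (vx c 2)) (n + 1)) &&
      ((F.testBit (vx c 4) ||
        chk t4 (add S (vx c 4)) (add (add (add (add F (vx c 0)) (vx c 1)) (vx c 2)) (vx c 3))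
          (n + 1)) &&
      (F.testBit (vx c 5) ||
        chk t5 (add S (vx c 5))
          (add (add (add (add (add F (vx c 0)) (vx c 1)) (vx c 2)) (vx c 3)) (vx c 4))
          (n + 1))))))))

theorem chk_root : chk root 0 0 0 = true := by decide +kernel

end Pool.Agent.V11181.PVC
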