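import Mathlib
set_option autoImplicit false

/-! Certificate for the path cover number of a 2-tree on 24 vertices. -/

namespace Pool.Agent.V11181.PVC

/-- search trees with at most six branches -/
inductive Tr : Type
  | leaf (c : ℕ) : Tr
  | node (c : ℕ) (t0 t1 t2 t3 t4 t5 : Tr) : Tr

/-- adjacency matrix of the graph, as the digits of a number -/
def adjM : ℕ := 61833081327383039048274804600078799158721823406928549992247886018274987201017411553989669284763656838229123461063504271322138617907376521959955525902387857678602580416004550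

def colM : ℕ := 107263529688

/-- dummy tree -/
def Z : Tr := .leaf 0

def tr0 : Tr := .node 115820213 (.node 66106420 (.node 73755650 (.node 82699392 (.leaf 91034672) (.leaf 91034664) (.leaf 91034504) (.leaf 140887622) (.leaf 140887622) (.leaf 140887622)) (.node 132552338 Z (.leaf 140887610) (.leaf 140887358) (.leaf 91034672) (.leaf 91034672) (.leaf 91034672)) (.node 82699202 Z Z (.leaf 91034498) (.leaf 115956871) (.leaf 107523246) (.leaf 96219225)) (.node 115956872 Z Z Z (.leaf 91034498) (.leaf 132545672) (.leaf 123601544)) (.node 107523271 Z Z Z Z (.leaf 115817671) (.leaf 123448519)) (.node 96219822 Z Z Z Z Z (.leaf 104182446))) (.node 182405284 Z (.node 190740556 Z (.leaf 82699392) (.leaf 82699392) (.leaf 82699392) (.leaf 82699392) (.leaf 82699392)) (.node 190740212 Z Z (.leaf 82699392) (.leaf 82699392) (.leaf 82699392) (.leaf 82699392)) (.node 82699392 (.leaf 91034672) (.leaf 91034664) (.leaf 91034504) (.leaf 140887622) (.leaf 140887622) (.leaf 140887622)) (.node 82699392 (.leaf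 91034672) (.leaf 91034664) (.leaf 91034504) (.leaf 140887622) (.leaf 140887622) (.leaf 140887622)) (.node 82699392 (.leaf 91034672) (.leaf 91034664) (.leaf 91034504) (.leaf 140887622) (.leaf 140887622) (.leaf 140887622))) (.node 123608500 Z Z (.node 132552052 Z Z (.leaf 140887348) (.leaf 165807421) (.leaf 157318596) (.leaf 144689775)) (.node 165807422 Z Z Z (.leaf 140887348) (.leaf 182396222) (.leaf 173452094)) (.node 157318621 Z Z Z Z (.leaf 165613021) (.leaf 173243869)) (.node 144690372 Z Z Z Z Z (.leaf 152652996))) (.node 144682183 (.node 157318280 (.leaf 165807408) Z Z Z (.leaf 165612680) (.leaf 173243528)) (.node 157318279 Z Z Z Z (.leaf 165612679) (.leaf 173243527)) Z Z Z (.node 152644807 Z Z Z Z Z (.leaf 160607431))) (.node 82695220 Z Z Z Z (.node 157318278 Z Z Z Z (.leaf 165612678) (.leaf 173243526)) (.node 144682137 Z Z Z Z Z (.leaf 152644761))) (.node 73751092 Z Z Z Z Z (.node 144682158 Z Z Z Z Z (.leaf 152644782)))) (.node 57730277 Z (.node 73755650 (.node 82699392 (.leaf 91034672)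 (.leaf 91034664) (.leaf 91034504) (.leaf 140887622) (.leaf 140887622) (.leaf 140887622)) (.node 132552338 Z (.leaf 140887610) (.leaf 140887358) (.leaf 91034672) (.leaf 91034672) (.leaf 91034672)) (.node 82699202 Z Z (.leaf 91034498) (.leaf 115956871) (.leaf 107523246) (.leaf 96219225)) (.node 115956872 Z Z Z (.leaf 91034498) (.leaf 132545672) (.leaf 123601544)) (.node 107523271 Z Z Z Z (.leaf 115817671) (.leaf 123448519)) (.node 96219822 Z Z Z Z Z (.leaf 104182446))) (.node 182216947 (.node 190732724 (.leaf 82699392) Z Z (.leaf 82699392) (.leaf 82699392) (.leaf 82699392)) (.node 190732723 Z Z Z (.leaf 82699392) (.leaf 82699392) (.leaf 82699392)) Z Z (.node 190511347 Z Z Z Z (.leaf 82699392) (.leaf 82699392)) (.node 82699392 (.leaf 91034672) (.leaf 91034664) (.leaf 91034504) (.leaf 140887622) (.leaf 140887622) (.leaf 140887622))) (.node 115956965 Z Z Z (.node 168930781 (.leaf 182216510) (.leaf 182216509) Z Z Z (.leaf 176893405)) (.node 132545765 Z Z Z Z (.leaf 182216508) (.leaf 168930735))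 (.node 123601637 Z Z Z Z Z (.leaf 168930756))) (.node 66024677 Z Z Z Z (.node 168930440 (.leaf 182216496) Z Z Z Z (.leaf 176893064)) (.node 168930439 Z Z Z Z Z (.leaf 176893063))) (.node 73655525 Z Z Z Z Z (.node 168930438 Z Z Z Z Z (.leaf 176893062)))) (.node 165817685 Z (.node 185100380 (.node 73755650 (.leaf 82699392) (.leaf 132552338) (.leaf 82699202) (.leaf 115956872) (.leaf 107523271) (.leaf 96219822)) (.node 73755650 (.leaf 82699392) (.leaf 132552338) (.leaf 82699202) (.leaf 115956872) (.leaf 107523271) (.leaf 96219822)) Z (.node 73755650 (.leaf 82699392) (.leaf 132552338) (.leaf 82699202) (.leaf 115956872) (.leaf 107523271) (.leaf 96219822)) Z (.node 73755650 (.leaf 82699392) (.leaf 132552338) (.leaf 82699202) (.leaf 115956872) (.leaf 107523271) (.leaf 96219822))) (.node 190519388 (.node 73755650 (.leaf 82699392) (.leaf 132552338) (.leaf 82699202) (.leaf 115956872) (.leaf 107523271) (.leaf 96219822)) (.node 73755650 (.leaf 82699392) (.leaf 132552338) (.leaf 82699202) (.leaf 115956872)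 (.leaf 107523271) (.leaf 96219822)) Z Z Z (.node 73755650 (.leaf 82699392) (.leaf 132552338) (.leaf 82699202) (.leaf 115956872) (.leaf 107523271) (.leaf 96219822))) Z (.node 73755650 (.node 82699392 (.leaf 91034672) (.leaf 91034664) (.leaf 91034504) (.leaf 140887622) (.leaf 140887622) (.leaf 140887622)) (.node 132552338 Z (.leaf 140887610) (.leaf 140887358) (.leaf 91034672) (.leaf 91034672) (.leaf 91034672)) (.node 82699202 Z Z (.leaf 91034498) (.leaf 115956871) (.leaf 107523246) (.leaf 96219225)) (.node 115956872 Z Z Z (.leaf 91034498) (.leaf 132545672) (.leaf 123601544)) (.node 107523271 Z Z Z Z (.leaf 115817671) (.leaf 123448519)) (.node 96219822 Z Z Z Z Z (.leaf 104182446))) (.node 157565357 Z (.node 73755650 (.leaf 82699392) (.leaf 132552338) (.leaf 82699202) (.leaf 115956872) (.leaf 107523271) (.leaf 96219822)) Z Z Z Z)) (.node 165817276 Z Z (.node 177096868 Z (.node 190519372 Z (.leaf 82699392) Z Z (.leaf 82699392) (.leaf 82699392)) (.node 190519028 Z Z Z Z (.leaf 82699392) (.leaf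 82699392)) Z Z (.node 185059492 Z Z Z Z Z (.leaf 82699392))) Z (.node 160841045 Z (.node 185100020 (.leaf 82699392) Z Z Z Z (.leaf 82699392)) Z Z Z (.node 190740220 Z Z Z Z Z (.leaf 82699392))) (.node 157564924 Z Z (.node 185100364 Z Z Z Z Z (.leaf 82699392)) Z Z Z)) (.node 47806133 Z Z Z Z (.node 123451061 Z Z Z Z (.node 112206965 Z Z (.leaf 112206461) Z Z (.leaf 165808034)) (.node 96281717 Z Z (.leaf 96281213) Z Z Z)) (.node 55768757 Z Z Z Z Z (.node 63731381 Z Z Z Z Z (.leaf 157333296)))) (.node 107525813 Z Z Z Z (.node 104244341 Z Z (.node 104243837 Z (.leaf 177087805) Z Z Z Z) Z Z Z) Z)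

def tr1 : Tr := .node 57730275 Z (.node 66106419 Z (.node 115964739 Z (.node 136574534 (.leaf 82699392) (.leaf 82699392) (.leaf 82699392) (.leaf 82699392) Z (.leaf 82699392)) (.node 140721734 (.leaf 82699392) (.leaf 82699392) (.leaf 82699392) Z Z (.leaf 82699392)) (.node 82699392 (.leaf 91034672) (.leaf 91034664) (.leaf 91034504) (.leaf 190740572) (.leaf 190740572) (.leaf 190740572)) (.node 82699392 (.leaf 91034672) (.leaf 91034664) (.leaf 91034504) (.leaf 190740572) (.leaf 190740572) (.leaf 190740572)) (.node 107712411 Z (.leaf 82699392) Z Z Z Z)) (.node 115964426 Z Z (.node 128571026 Z (.leaf 140721722) (.leaf 140721470) (.leaf 140715997) Z (.leaf 136533650)) (.node 132421597 (.leaf 140882174) (.leaf 140882173) Z Z Z (.leaf 91034672)) (.node 112315203 Z (.leaf 136574270) Z Z Z (.leaf 140887370)) (.node 107712074 Z Z (.leaf 136574522) Z Z Z)) (.node 66024867 Z (.node 120462535 (.leaf 132421256) (.leaf 132421255) Z Z Z (.leaf 128425159)) Z Z (.node 63736419 Z Z (.leaf 63735915) Z Z (.leaf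 115957488)) (.node 55773795 Z Z (.leaf 55773291) Z Z Z)) (.node 82695219 Z Z Z Z (.node 47811171 Z (.leaf 132421254) (.leaf 47810667) Z Z Z) (.node 73655715 Z (.leaf 120462489) Z Z Z Z)) (.node 73751091 Z Z Z Z Z (.node 57730467 Z (.leaf 120462510) Z Z Z Z))) (.node 115964428 Z Z (.node 144703046 (.node 157319149 (.leaf 157319272) (.leaf 157319272) Z Z (.leaf 165613549) (.leaf 173244397)) (.node 157319272 (.leaf 165807444) (.leaf 165807448) Z Z (.leaf 165613672) (.leaf 173244520)) (.node 157319272 (.leaf 165807449) (.leaf 165807448) Z Z (.leaf 165613672) (.leaf 173244520)) Z Z (.node 152665670 Z Z Z Z Z (.leaf 160628294))) (.node 144705999 Z (.node 165807447 Z Z Z (.leaf 82699392) (.leaf 182396247) (.leaf 173452119)) (.node 157319247 Z Z Z Z (.leaf 165613647) (.leaf 173244495)) Z Z (.node 152668623 Z Z Z Z Z (.leaf 160631247))) (.node 140887372 Z Z Z Z (.node 157319220 Z Z Z Z (.leaf 165613620) (.leaf 173244468)) (.node 144705396 Z Z Z Z Z (.leaf 152668020))) (.node 107712076 Z Z (.node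 144704749 Z Z Z Z Z (.leaf 152667373)) Z Z Z)) (.node 115957538 Z Z Z (.node 120491485 (.node 132422462 (.leaf 140882210) Z Z Z (.leaf 140716862) (.leaf 157318910)) (.node 132422461 Z Z Z Z (.leaf 140716861) (.leaf 157318909)) Z Z Z (.node 128454109 Z Z Z Z Z (.leaf 136416733))) (.node 112314892 Z Z (.node 140721460 Z Z Z Z (.leaf 144702782) (.leaf 144688984)) Z Z (.node 132546338 Z Z Z Z Z (.leaf 136574260))) (.node 107704610 Z Z Z (.node 128570740 Z Z Z Z Z (.leaf 136533364)) Z Z)) (.node 66024675 Z Z Z Z (.node 63735628 Z Z (.node 120491144 (.leaf 132422448) Z Z Z Z (.leaf 128453768)) Z Z (.node 107539248 Z Z Z Z Z (.leaf 123464496))) (.node 55773004 Z Z (.node 120491143 Z Z Z Z Z (.leaf 128453767)) Z Z Z)) (.node 73655523 Z Z Z Z Z (.node 47810380 Z Z (.node 120491142 Z Z Z Z Z (.leaf 128453766)) Z Z Z))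

def tr2 : Tr := .node 57730253 Z Z (.node 115964429 Z Z (.node 145034822 (.node 157332973 (.leaf 157333096) (.leaf 157333096) Z Z (.leaf 182216173) (.leaf 173258221)) (.node 157333096 (.leaf 165808020) (.leaf 165808024) Z Z (.leaf 182216296) (.leaf 173258344)) (.node 157333096 (.leaf 165808025) (.leaf 165808024) Z Z (.leaf 182216296) (.leaf 173258344)) Z Z (.node 168922694 Z Z Z Z Z (.leaf 176885318))) (.node 145037775 Z (.node 165808023 Z Z Z (.leaf 190732695) (.leaf 182396823) (.leaf 157555095)) (.node 157333071 Z Z Z Z (.leaf 182216271) (.leaf 173258319)) Z Z (.node 168925647 Z Z Z Z Z (.leaf 176888271))) (.node 140887373 Z Z Z Z (.node 157333044 Z Z Z Z (.leaf 182216244) (.leaf 173258292)) (.node 145037172 Z Z Z Z Z (.leaf 168925044))) (.node 107712077 Z Z (.node 145036525 Z Z Z Z Z (.leaf 168924397)) Z Z Z)) (.node 40982162 Z (.node 41023034 Z (.node 41038562 Z (.leaf 165808010) (.leaf 157332962) (.leaf 145036514) Z Z) (.node 157332733 Z Z Z Z (.leaf 182215933) (.leaf 173257981))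 (.node 145034810 Z Z Z Z Z (.leaf 168922682)) Z Z) (.node 112314893 Z Z (.node 145034558 Z Z (.leaf 157332734) Z Z (.leaf 168922430)) (.node 140882174 Z Z Z Z (.leaf 157332734) (.leaf 157332734)) Z Z) (.node 145029085 Z Z Z Z Z (.node 168916957 Z Z Z Z Z (.leaf 176879581))) Z Z) (.node 66024653 Z Z Z Z (.node 63735629 Z Z (.node 145028744 (.leaf 157332720) Z Z Z Z (.leaf 168916616)) Z Z (.node 40981872 Z Z (.leaf 41022768) Z Z Z)) (.node 55773005 Z Z (.node 145028743 Z Z Z Z Z (.leaf 168916615)) Z Z Z)) (.node 73655501 Z Z Z Z Z (.node 47810381 Z Z (.node 145028742 Z Z Z Z Z (.leaf 168916614)) Z Z Z))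

def tr3 : Tr := .node 115957564 Z Z Z (.node 140882236 Z Z Z (.node 140717812 Z (.node 152688232 (.leaf 165614489) (.leaf 165614488) Z Z Z (.leaf 160650856)) Z Z (.node 136439884 Z (.leaf 160831385) Z Z Z (.leaf 165808035)) (.node 128477260 Z (.leaf 160831384) Z Z Z Z)) (.node 120514636 Z (.node 160831383 Z Z Z (.leaf 182216535) Z (.leaf 120516340)) (.node 165614487 Z Z Z Z Z (.leaf 182216535)) Z Z Z) (.node 132423412 Z (.node 152688207 Z Z Z Z Z (.leaf 160650831)) Z Z Z Z)) (.node 132546364 Z Z Z Z (.node 96626764 Z (.node 160831380 Z Z Z (.leaf 182216532) Z (.leaf 96628468)) (.node 165614484 Z Z Z Z Z (.leaf 152688232)) Z Z Z) (.node 123465460 Z (.node 152688180 Z Z Z Z Z (.leaf 160650804)) Z Z Z Z)) (.node 107704636 Z Z Z (.node 107540212 Z (.node 152688109 Z Z Z Z Z (.leaf 160650733)) Z Z Z Z) Z Z)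

def tr4 : Tr := .node 107539874 Z Z Z Z (.node 115819899 Z Z Z Z (.node 120506174 (.node 132423074 Z Z Z Z (.leaf 140717474) (.leaf 120514274)) Z Z Z Z (.node 128468798 Z Z Z Z Z (.leaf 136431422))) (.node 120506173 Z Z Z Z Z (.node 128468797 Z Z Z Z Z (.leaf 136431421)))) (.node 112308028 Z Z Z Z Z (.node 123465122 Z Z Z Z Z (.node 128564453 Z Z Z Z Z (.leaf 136527077))))

def tr5 : Tr := .node 55768443 Z Z Z Z Z (.node 63731067 Z Z Z Z Z (.node 96618288 Z Z Z Z Z (.node 120506160 Z Z Z Z Z (.leaf 128468784))))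

def tr6 : Tr := .node 47805819 tr0 tr1 tr2 tr3 tr4 tr5

def tr7 : Tr := .node 57744101 (.node 66106996 (.node 66111578 (.node 66111793 Z (.leaf 88048688) (.leaf 90924080) (.leaf 140887622) (.leaf 140887622) (.leaf 57859465)) Z (.node 96232496 (.leaf 107523799) (.leaf 107523922) (.leaf 107523922) Z Z (.leaf 104195120)) (.node 96235449 Z (.leaf 115956897) (.leaf 107523897) Z Z (.leaf 104198073)) (.node 91034522 Z Z Z Z (.leaf 107523870) (.leaf 96234846)) (.node 57859226 Z Z (.leaf 96234199) Z Z Z)) (.node 66111793 Z (.node 88048688 (.leaf 182405284) (.leaf 182405284) (.leaf 182405284) (.leaf 182405284) Z (.leaf 182405284)) (.node 90924080 (.leaf 182405284) (.leaf 182405284) (.leaf 182405284) Z Z (.leaf 182405284)) (.node 182405284 Z (.leaf 190740556) (.leaf 190740212) (.leaf 140887622) (.leaf 140887622) (.leaf 140887622)) (.node 182405284 Z (.leaf 190740556) (.leaf 190740212) (.leaf 140887622) (.leaf 140887622) (.leaf 140887622)) (.node 57859465 Z (.leaf 182405284) Z Z Z Z)) Z (.node 91031668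 Z Z Z (.node 144682834 (.leaf 157318307) (.leaf 157318306) Z Z Z (.leaf 152645458)) (.node 157318305 Z Z Z Z (.leaf 165612705) (.leaf 173243553)) (.node 144682809 Z Z Z Z Z (.leaf 152645433))) (.node 82695796 Z Z Z Z (.node 157318302 Z Z Z Z (.leaf 165612702) (.leaf 173243550)) (.node 144682782 Z Z Z Z Z (.leaf 152645406))) (.node 57854068 Z Z Z (.node 144682711 Z Z Z Z Z (.leaf 152645335)) Z Z)) (.node 66111578 (.node 66111793 Z (.node 88048688 (.leaf 165817685) (.leaf 165817685) (.leaf 165817685) (.leaf 165817685) Z (.leaf 165817685)) (.node 90924080 (.leaf 165817685) (.leaf 165817685) (.leaf 165817685) Z Z (.leaf 165817685)) (.node 165817685 Z (.leaf 185100380) (.leaf 190519388) (.leaf 140887622) (.leaf 140887622) (.leaf 157565357)) (.node 165817685 Z (.leaf 185100380) (.leaf 190519388) (.leaf 140887622) (.leaf 140887622) (.leaf 157565357)) (.node 57859465 Z (.leaf 165817685) Z Z Z Z)) Z (.node 96232496 (.node 107523799 (.leaf 107523922) (.leaf 107523922) Z Z (.leaf 115818199) (.leaf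 123449047)) (.node 107523922 (.leaf 115956894) (.leaf 115956898) Z Z (.leaf 115818322) (.leaf 123449170)) (.node 107523922 (.leaf 115956899) (.leaf 115956898) Z Z (.leaf 115818322) (.leaf 123449170)) Z Z (.node 104195120 Z Z Z Z Z (.leaf 112157744))) (.node 96235449 Z (.node 115956897 Z Z Z (.leaf 165817685) (.leaf 132545697) (.leaf 123601569)) (.node 107523897 Z Z Z Z (.leaf 115818297) (.leaf 123449145)) Z Z (.node 104198073 Z Z Z Z Z (.leaf 112160697))) (.node 91034522 Z Z Z Z (.node 107523870 Z Z Z Z (.leaf 115818270) (.leaf 123449118)) (.node 96234846 Z Z Z Z Z (.leaf 104197470))) (.node 57859226 Z Z (.node 96234199 Z Z Z Z Z (.leaf 104196823)) Z Z Z)) (.node 165817276 Z Z (.node 177096868 Z (.node 190519372 Z (.leaf 66111793) (.leaf 66111793) Z (.leaf 66111793) (.leaf 66111793)) (.node 190519028 Z Z (.leaf 66111793) Z (.leaf 66111793) (.leaf 66111793)) (.node 190511347 Z Z Z Z (.leaf 66111793) (.leaf 66111793)) Z (.node 185059492 Z Z Z Z Z (.leaf 66111793))) (.node 182216947 (.node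 190732724 (.leaf 66111793) Z Z Z (.leaf 66111793) (.leaf 66111793)) (.node 190732723 Z Z Z Z (.leaf 66111793) (.leaf 66111793)) Z Z Z (.node 66111793 Z (.leaf 88048688) (.leaf 90924080) (.leaf 140887622) (.leaf 140887622) (.leaf 57859465))) (.node 160841045 Z (.node 185100020 (.leaf 66111793) Z Z Z Z (.leaf 66111793)) Z Z Z (.node 190740220 Z Z Z Z Z (.leaf 66111793))) (.node 157564924 Z Z (.node 185100364 Z Z Z Z Z (.leaf 66111793)) Z Z Z)) Z (.node 82627301 Z Z Z Z (.node 90921701 Z Z Z Z (.node 87951029 Z (.leaf 168930467) Z Z Z (.leaf 157333297)) (.node 79988405 Z (.leaf 168930466) Z Z Z Z)) (.node 72025781 Z (.node 168930465 Z Z Z Z Z (.leaf 176893089)) Z Z Z Z)) (.node 73669349 Z Z Z Z Z (.node 48137909 Z (.node 168930462 Z Z Z Z Z (.leaf 176893086)) Z Z Z Z))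

def tr8 : Tr := .node 66111576 Z Z (.node 80045184 Z (.node 90924072 Z (.node 140887622 (.leaf 165817276) (.leaf 165817276) (.leaf 165817276) (.leaf 165817276) (.leaf 165817276) (.leaf 165817276)) (.node 140887622 (.leaf 165817276) (.leaf 165817276) (.leaf 165817276) (.leaf 165817276) (.leaf 165817276) (.leaf 165817276)) Z (.node 140887622 (.leaf 165817276) (.leaf 165817276) (.leaf 165817276) (.leaf 165817276) (.leaf 165817276) (.leaf 165817276)) (.node 140887622 (.leaf 165817276) (.leaf 165817276) (.leaf 165817276) (.leaf 165817276) (.leaf 165817276) (.leaf 165817276))) (.node 90923912 Z Z (.node 140887622 (.leaf 165817276) (.leaf 165817276) (.leaf 165817276) (.leaf 165817276) (.leaf 165817276) (.leaf 165817276)) Z (.node 140887622 (.leaf 165817276) (.leaf 165817276) (.leaf 165817276) (.leaf 165817276) (.leaf 165817276) (.leaf 165817276)) (.node 140887622 (.leaf 165817276) (.leaf 165817276) (.leaf 165817276) (.leaf 165817276) (.leaf 165817276) (.leaf 165817276))) (.node 90920647 Z Z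 Z Z (.node 140887622 (.leaf 165817276) (.leaf 165817276) (.leaf 165817276) (.leaf 165817276) (.leaf 165817276) (.leaf 165817276)) (.node 140887622 (.leaf 165817276) (.leaf 165817276) (.leaf 165817276) (.leaf 165817276) (.leaf 165817276) (.leaf 165817276))) Z (.node 88007808 Z Z Z Z Z (.node 140887622 (.leaf 165817276) (.leaf 165817276) (.leaf 165817276) (.leaf 165817276) (.leaf 165817276) (.leaf 165817276)))) (.node 82626247 (.node 91031624 (.node 140887622 (.leaf 165817276) (.leaf 165817276) (.leaf 165817276) (.leaf 165817276) (.leaf 165817276) (.leaf 165817276)) Z Z Z (.node 140887622 (.leaf 165817276) (.leaf 165817276) (.leaf 165817276) (.leaf 165817276) (.leaf 165817276) (.leaf 165817276)) (.node 140887622 (.leaf 165817276) (.leaf 165817276) (.leaf 165817276) (.leaf 165817276) (.leaf 165817276) (.leaf 165817276))) (.node 91031623 Z Z Z Z (.node 140887622 (.leaf 165817276) (.leaf 165817276) (.leaf 165817276) (.leaf 165817276) (.leaf 165817276) (.leaf 165817276)) (.node 140887622 (.leaf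 165817276) (.leaf 165817276) (.leaf 165817276) (.leaf 165817276) (.leaf 165817276) (.leaf 165817276))) Z Z Z (.node 140887622 (.node 165817276 (.leaf 165817685) (.leaf 182405284) (.leaf 177096868) (.leaf 182216947) (.leaf 160841045) (.leaf 157564924)) (.node 165817276 (.leaf 165817685) (.leaf 182405284) (.leaf 177096868) (.leaf 182216947) (.leaf 160841045) (.leaf 157564924)) (.node 165817276 (.leaf 165817685) (.leaf 182405284) (.leaf 177096868) (.leaf 182216947) (.leaf 160841045) (.leaf 157564924)) (.node 165817276 (.leaf 165817685) (.leaf 182405284) (.leaf 177096868) (.leaf 182216947) (.leaf 160841045) (.leaf 157564924)) (.node 165817276 (.leaf 165817685) (.leaf 182405284) (.leaf 177096868) (.leaf 182216947) (.leaf 160841045) (.leaf 157564924)) (.node 165817276 (.leaf 165817685) (.leaf 182405284) (.leaf 177096868) (.leaf 182216947) (.leaf 160841045) (.leaf 157564924)))) (.node 63789361 Z (.node 88048520 (.node 140887622 (.leaf 165817276) (.leaf 165817276) (.leaf 165817276) (.leaf 165817276)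 (.leaf 165817276) (.leaf 165817276)) Z Z Z Z (.node 140887622 (.leaf 165817276) (.leaf 165817276) (.leaf 165817276) (.leaf 165817276) (.leaf 165817276) (.leaf 165817276))) Z Z Z (.node 91034520 Z Z Z Z Z (.node 140887622 (.leaf 165817276) (.leaf 165817276) (.leaf 165817276) (.leaf 165817276) (.leaf 165817276) (.leaf 165817276)))) (.node 57859224 Z Z (.node 88048680 Z Z Z Z Z (.node 140887622 (.leaf 165817276) (.leaf 165817276) (.leaf 165817276) (.leaf 165817276) (.leaf 165817276) (.leaf 165817276))) Z Z Z)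

def tr9 : Tr := .node 96218530 (.node 66106992 Z Z Z (.node 72023239 (.node 107523656 (.leaf 107523105) Z Z Z (.leaf 115818056) (.leaf 123448904)) (.node 107523655 Z Z Z Z (.leaf 115818055) (.leaf 123448903)) Z Z Z (.node 87948487 Z Z Z Z Z (.leaf 96229063))) (.node 63789146 Z Z (.node 96232328 (.leaf 96218531) Z Z Z Z (.leaf 104194952)) Z Z (.node 88048514 Z Z Z Z Z (.leaf 96234192))) (.node 57854064 Z Z Z (.node 88007618 Z Z Z Z Z (.leaf 96232488)) Z Z)) Z (.node 79985863 (.node 82627208 (.node 91031664 Z Z Z (.leaf 96215890) Z (.leaf 96215865)) Z Z Z (.node 90921608 Z Z Z Z Z (.leaf 107523656)) Z) (.node 82627207 Z Z Z Z (.node 90921607 Z Z Z Z Z (.leaf 107523655)) Z) Z Z Z Z) Z Z (.node 80044994 Z Z (.node 82695792 Z Z Z Z (.node 90923906 Z Z Z Z Z (.leaf 104181154)) Z) Z Z Z)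

def tr10 : Tr := .node 41168592 Z (.node 55753445 (.node 66024052 Z Z Z Z (.node 82626100 Z Z Z Z (.leaf 90920500) (.leaf 152644641)) (.node 152645191 Z Z Z Z Z (.leaf 160607815))) Z Z Z Z (.node 63716069 Z Z Z Z Z (.node 71996645 Z Z Z Z Z (.leaf 79959269)))) Z Z Z (.node 32531496 Z (.node 63784564 Z Z Z Z Z (.node 32533200 Z Z (.leaf 80041012) Z Z Z)) Z Z Z Z)

def tr11 : Tr := .node 145042584 Z Z Z Z (.node 144682704 Z (.node 144682567 (.node 144682568 (.leaf 144682017) Z Z Z Z Z) Z Z Z Z Z) Z Z Z Z) Z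

def tr12 : Tr := .node 157318296 tr7 Z tr8 tr9 tr10 tr11

def tr13 : Tr := .node 57744077 (.node 66107018 (.node 66111579 Z Z (.node 96564272 (.leaf 107537623) (.leaf 107537746) (.leaf 107537746) Z Z (.leaf 120452144)) (.node 96567225 Z (.leaf 115957473) (.leaf 107537721) Z Z (.leaf 120455097)) (.node 91034523 Z Z Z Z (.leaf 107537694) (.leaf 96566622)) (.node 57859227 Z Z (.leaf 96565975) Z Z Z)) Z Z (.node 91031690 Z Z Z (.node 90922466 Z (.leaf 104219986) Z Z (.leaf 87969338) (.leaf 80006714)) (.node 72044090 Z (.leaf 112307937) (.leaf 115819233) Z Z Z) (.node 82628066 Z (.leaf 104219961) Z Z Z Z)) (.node 82695818 Z Z Z Z (.node 48156218 Z (.leaf 112307934) (.leaf 115819230) Z Z Z) (.node 73670114 Z (.leaf 104219934) Z Z Z Z)) (.node 57854090 Z Z Z (.node 57744866 Z (.leaf 104219863) Z Z Z Z) Z Z)) Z (.node 66107021 Z Z Z (.node 91031693 Z Z Z (.node 145028434 (.leaf 157332707) (.leaf 157332706) Z Z Z (.leaf 168916306)) (.node 157332705 Z Z Z Z (.leaf 182215905) (.leaf 173257953))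 (.node 145028409 Z Z Z Z Z (.leaf 168916281))) (.node 82695821 Z Z Z Z (.node 157332702 Z Z Z Z (.leaf 182215902) (.leaf 173257950)) (.node 145028382 Z Z Z Z Z (.leaf 168916254))) (.node 57854093 Z Z Z (.node 145028311 Z Z Z Z Z (.leaf 168916183)) Z Z)) Z (.node 82627277 Z Z Z Z (.node 90921677 Z Z Z Z (.node 87955277 Z Z (.leaf 115818125) Z Z (.leaf 40981873)) (.node 79992653 Z Z (.leaf 145028770) Z Z Z)) (.node 72030029 Z Z (.node 145028769 Z Z Z Z Z (.leaf 168916641)) Z Z Z)) (.node 73669325 Z Z Z Z Z (.node 48142157 Z Z (.node 145028766 Z Z Z Z Z (.leaf 168916638)) Z Z Z))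

def tr14 : Tr := .node 55766669 (.node 66024649 Z Z (.node 96560839 (.node 107537480 (.leaf 115957464) Z Z Z (.leaf 132420680) (.leaf 123462728)) (.node 107537479 Z Z Z Z (.leaf 132420679) (.leaf 123462727)) Z Z Z (.node 120448711 Z Z Z Z Z (.leaf 128411335))) Z (.node 72038024 (.node 82627824 Z Z Z Z (.leaf 90922224) (.leaf 72043824)) Z Z Z Z (.node 80000648 Z Z Z Z Z (.leaf 87963272))) (.node 72038023 Z Z Z Z Z (.node 80000647 Z Z Z Z Z (.leaf 87963271)))) Z Z (.node 66024077 Z Z Z Z (.node 145028168 (.node 157332696 Z Z Z Z (.leaf 182215896) (.leaf 173257944)) Z Z Z Z (.node 168916040 Z Z Z Z Z (.leaf 176878664))) (.node 145028167 Z Z Z Z Z (.node 168916039 Z Z Z Z Z (.leaf 176878663)))) Z (.node 63729293 Z Z Z Z Z (.node 71996621 Z Z Z Z Z (.node 79959245 Z Z Z Z Z (.leaf 87921869))))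

def tr15 : Tr := .node 40825896 Z (.node 63784589 (.node 63789147 Z Z (.node 96564104 (.leaf 107537616) Z Z Z Z (.leaf 120451976)) Z Z (.node 24363216 Z Z Z (.leaf 96565968) Z Z)) Z Z Z Z (.node 40827600 Z Z (.node 145028304 Z Z Z Z Z (.leaf 168916176)) Z Z Z)) Z Z Z (.node 24306816 Z (.node 24347688 Z Z Z (.node 96564264 Z Z Z Z Z (.leaf 120452136)) Z Z) Z Z Z Z)

def tr16 : Tr := .node 57744624 Z Z Z Z Z (.node 63784586 Z Z Z Z Z (.node 73669872 Z Z Z Z Z (.node 80041011 Z Z Z Z Z (.leaf 88003635))))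

def tr17 : Tr := .node 40836816 tr13 tr14 Z tr15 Z tr16

def tr18 : Tr := .node 48151970 (.node 57744700 Z (.node 66107020 Z Z Z (.node 91031692 Z Z Z (.leaf 152659282) (.leaf 165613281) (.leaf 152659257)) (.node 82695820 Z Z Z Z (.leaf 165613278) (.leaf 152659230)) (.node 57854092 Z Z Z (.leaf 152659159) Z Z)) Z Z (.node 82627900 Z Z Z Z (.node 90922300 Z Z Z Z (.leaf 152687843) (.leaf 152687842)) (.node 152687841 Z Z Z Z Z (.leaf 160650465))) (.node 73669948 Z Z Z Z Z (.node 152687838 Z Z Z Z Z (.leaf 160650462)))) Z (.node 57744674 Z Z Z Z (.node 82627874 Z Z Z Z (.node 90922274 Z Z Z Z (.leaf 87969076) (.leaf 80006452)) (.node 72043828 Z Z (.leaf 104234721) Z Z Z)) (.node 73669922 Z Z Z Z Z (.node 48155956 Z Z (.leaf 104234718) Z Z Z))) Z Z (.node 72039842 Z Z Z Z Z (.node 80002466 Z Z Z Z Z (.node 87965090 Z Z Z Z Z (.leaf 96618289))))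

def tr19 : Tr := .node 41182416 Z (.node 55754044 Z (.node 66024076 Z Z Z Z (.node 152659016 (.leaf 165613272) Z Z Z Z (.leaf 160621640)) (.node 152659015 Z Z Z Z Z (.leaf 160621639))) Z Z Z (.node 63716668 Z Z Z Z Z (.node 152687832 Z Z Z Z Z (.leaf 160650456)))) Z Z Z (.node 32863272 Z (.node 63784588 Z Z Z Z Z (.node 32864976 Z Z (.leaf 152659152) Z Z Z)) Z Z Z Z)

def tr20 : Tr := .node 48151344 Z Z Z Z Z (.node 55768393 Z Z Z Z Z (.node 63731017 Z Z Z Z Z (.node 72039216 Z Z Z Z Z (.leaf 80001840))))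

def tr21 : Tr := .node 41182872 tr18 Z tr19 Z Z tr20

def tr22 : Tr := .node 144696633 (.node 145043185 Z (.node 48152308 Z Z (.node 144696535 (.leaf 144696658) (.leaf 144696658) Z Z Z Z) Z Z (.node 80002804 Z Z Z Z Z (.leaf 87965428))) Z Z (.node 144696990 (.node 144696994 (.leaf 144696995) Z Z Z Z Z) Z Z Z Z Z) Z) (.node 144696993 Z Z (.node 72040180 Z Z (.node 144696606 (.leaf 157318881) Z Z Z Z Z) Z Z Z) Z Z Z) Z Z Z Z

def tr23 : Tr := .node 145043160 Z Z Z Z (.node 144696528 Z (.node 144696391 (.node 144696392 (.leaf 157318872) Z Z Z Z Z) Z Z Z Z Z) Z Z Z Z) Z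

def tr24 : Tr := .node 144696984 tr22 Z tr23 Z Z Z

def tr25 : Tr := .node 173244145 Z (.node 173258569 Z Z Z (.node 173244126 (.node 173244129 (.leaf 173244130) Z Z Z Z Z) Z Z Z Z Z) Z Z) Z Z Z Z

def tr26 : Tr := .node 173244120 tr25 Z Z Z Z Z

def tr27 : Tr := .node 182396233 tr6 tr12 tr17 tr21 tr24 tr26

def root : Tr := tr27

end Pool.Agent.V11181.PVC
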