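import Pool.Agent.V11181.PVC.Check
set_option autoImplicit false

/-! Soundness of the checker. -/

namespace Pool.Agent.V11181.PVC
open Finset

/-- `i`-th vertex of the coded path as an element of `Fin 24` -/
def vf (c i : ℕ) : Fin 24 := ⟨vx c i, Nat.mod_lt _ (by norm_num)⟩

theorem add_test (S v w : ℕ) : (add S v).testBit w = true ↔ (S.testBit w = true ∨ v = w) := by
  unfold add
  rw [Nat.testBit_or, Nat.one_shiftLeft, Nat.testBit_two_pow]
  simp

/-- set of the bits of a mask -/
def bits (S : ℕ) : Finset (Fin 24) := univ.filter (fun v : Fin 24 => S.testBit v.val = true)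

theorem mem_bits (S : ℕ) (v : Fin 24) : v ∈ bits S ↔ S.testBit v.val = true := by
  simp [bits]

theorem bits_add (S : ℕ) (v : Fin 24) : bits (add S v.val) = insert v (bits S) := by
  ext w
  rw [mem_bits, add_test, mem_insert, mem_bits]
  constructor
  · rintro (h | h)
    · exact Or.inr h
    · exact Or.inl (Fin.ext h.symm)
  · rintro (h | h)
    · exact Or.inr (by rw [h])
    · exact Or.inl h

theorem step {T : Finset (Fin 24)} {S F n : ℕ} {v : Fin 24} (hv : v ∈ T)
    (hS : ∀ w ∈ bits S, w ∈ T) (hF : ∀ w ∈ bits F, w ∉ T) (hc : (bits S).card = n)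
    (hd : S.testBit v.val = false) :
    (∀ w ∈ bits (add S v.val), w ∈ T) ∧ (bits (add S v.val)).card = n + 1 ∧
      F.testBit v.val = false := by
  refine ⟨?_, ?_, ?_⟩
  · intro w hw
    rw [bits_add, mem_insert] at hw
    rcases hw with hw | hw
    · rw [hw]; exact hv
    · exact hS w hw
  · rw [bits_add, card_insert_of_notMem, hc]
    rw [mem_bits, hd]
    simp
  · by_contra h
    exact hF v ((mem_bits F v).2 (by simpa using h)) hv

theorem forb {T : Finset (Fin 24)} {F : ℕ} {v : Fin 24} (hv : v ∉ T)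
    (hF : ∀ w ∈ bits F, w ∉ T) : ∀ w ∈ bits (add F v.val), w ∉ T := by
  intro w hw
  rw [bits_add, mem_insert] at hw
  rcases hw with hw | hw
  · rw [hw]; exact hv
  · exact hF w hw

theorem chk_sound (T : Finset (Fin 24)) (hT : T.card ≤ 6)
    (hcov : ∀ c, isPath c = true → vf c 0 ∈ T ∨ vf c 1 ∈ T ∨ vf c 2 ∈ T ∨ vf c 3 ∈ T ∨
      vf c 4 ∈ T ∨ vf c 5 ∈ T) :
    ∀ (t : Tr) (S F n : ℕ), chk t S F n = true → (∀ w ∈ bits S, w ∈ T) →
      (∀ w ∈ bits F, w ∉ T) → (bits S).card = n → False := by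
  intro t
  induction t with
  | leaf c =>
    intro S F n h hS hF hn
    simp only [chk, Bool.and_eq_true, Bool.or_eq_true, beq_iff_eq] at h
    obtain ⟨hp, hd, h6⟩ := h
    have hc := hcov c hp
    simp only [disj, Bool.and_eq_true, Bool.not_eq_true'] at hd
    obtain ⟨d0, d1, d2, d3, d4, d5⟩ := hd
    rcases h6 with h6 | h6
    · have hsub : bits S ⊆ T := fun w hw => hS w hw
      have heq : bits S = T := eq_of_subset_of_card_le hsub (by rw [hn, h6]; exact hT)
      rw [← heq] at hc
      simp only [mem_bits, vf] at hc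
      simp [d0, d1, d2, d3, d4, d5] at hc
    · simp only [inside, Bool.and_eq_true] at h6
      obtain ⟨f0, f1, f2, f3, f4, f5⟩ := h6
      rcases hc with hc | hc | hc | hc | hc | hc
      · exact hF _ ((mem_bits F _).2 f0) hc
      · exact hF _ ((mem_bits F _).2 f1) hc
      · exact hF _ ((mem_bits F _).2 f2) hc
      · exact hF _ ((mem_bits F _).2 f3) hc
      · exact hF _ ((mem_bits F _).2 f4) hc
      · exact hF _ ((mem_bits F _).2 f5) hc
  | node c t0 t1 t2 t3 t4 t5 i0 i1 i2 i3 i4 i5 =>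
    intro S F n h hS hF hn
    simp only [chk, Bool.and_eq_true, Bool.or_eq_true] at h
    obtain ⟨hp, hd, h0, h1, h2, h3, h4, h5⟩ := h
    have hc := hcov c hp
    simp only [disj, Bool.and_eq_true, Bool.not_eq_true'] at hd
    obtain ⟨d0, d1, d2, d3, d4, d5⟩ := hd
    by_cases c0 : vf c 0 ∈ T
    · obtain ⟨a, b, e⟩ := step c0 hS hF hn d0
      refine i0 _ _ _ (h0.resolve_left ?_) a hF b
      intro h; rw [show (vf c 0).val = vx c 0 from rfl] at e; rw [e] at h; cases h
    have F1 := forb c0 hF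
    by_cases c1 : vf c 1 ∈ T
    · obtain ⟨a, b, e⟩ := step c1 hS hF hn d1
      refine i1 _ _ _ (h1.resolve_left ?_) a F1 b
      intro h; rw [show (vf c 1).val = vx c 1 from rfl] at e; rw [e] at h; cases h
    have F2 := forb c1 F1
    by_cases c2 : vf c 2 ∈ T
    · obtain ⟨a, b, e⟩ := step c2 hS hF hn d2
      refine i2 _ _ _ (h2.resolve_left ?_) a F2 b
      intro h; rw [show (vf c 2).val = vx c 2 from rfl] at e; rw [e] at h; cases h
    have F3 := forb c2 F2
    by_cases c3 : vf c 3 ∈ T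
    · obtain ⟨a, b, e⟩ := step c3 hS hF hn d3
      refine i3 _ _ _ (h3.resolve_left ?_) a F3 b
      intro h; rw [show (vf c 3).val = vx c 3 from rfl] at e; rw [e] at h; cases h
    have F4 := forb c3 F3
    by_cases c4 : vf c 4 ∈ T
    · obtain ⟨a, b, e⟩ := step c4 hS hF hn d4
      refine i4 _ _ _ (h4.resolve_left ?_) a F4 b
      intro h; rw [show (vf c 4).val = vx c 4 from rfl] at e; rw [e] at h; cases h
    have F5 := forb c4 F4
    by_cases c5 : vf c 5 ∈ T
    · obtain ⟨a, b, e⟩ := step c5 hS hF hn d5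
      refine i5 _ _ _ (h5.resolve_left ?_) a F5 b
      intro h; rw [show (vf c 5).val = vx c 5 from rfl] at e; rw [e] at h; cases h
    simp [c0, c1, c2, c3, c4, c5] at hc

end Pool.Agent.V11181.PVC
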